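import Pool.Agent.H61.KU.TC

/-!
# Kuiper board, C9: the members of `E` have 4 elements
-/

open Set

namespace Pool.Agent.H61.KU

theorem pf_s3 (hF : T_FAC) (hR : T_ROT) (hS : T_SPN) (hW : T_TWO) (h1 : T_S1) (h2 : T_S2) :
    T_S3 := by
  intro ι W _ _ _ _ _ v E h9 hE T hT
  obtain ⟨Funiv, Finter, -, -, Fss, -, Fins⟩ := hF ι W v
  have hconf := hE.conf
  obtain ⟨hTf, hT4⟩ := hE.face T hT
  have hcard : 4 ≤ T.card := by
    classical
    have h := finrank_span_finset_le_card (R := ℝ) (T.image v)
    have h' : Module.finrank ℝ (Submodule.span ℝ ((T.image v : Finset W) : Set W)) = 4 := by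
      rw [Finset.coe_image]; exact hT4
    rw [Set.finrank, h'] at h
    exact h.trans Finset.card_image_le
  by_contra hne
  have h5 : 5 ≤ T.card := by omega
  have hspan := hS ι W v T Finset.univ hTf Funiv (Finset.subset_univ T) (by
    intro F hFf hTF _ hr
    rw [hT4] at hr
    exact h1 ι W v E h9 hE T F hT hFf hr hTF)
  rw [hconf.span] at hspan
  -- `X` is nonempty
  have hX : ∃ x, x ∉ T ∧ IsFace v (insert x T) := by
    by_contra hno
    push Not at hno
    have hle : (⊤ : Submodule ℝ W) ≤ sp v T := by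
      refine hspan.trans (Submodule.span_mono ?_)
      rintro _ ⟨i, hi, rfl⟩
      rcases hi with hi | hi
      · exact ⟨i, by simpa using hi, rfl⟩
      · exact absurd hi.2.2 (hno i hi.2.1)
    have : Module.finrank ℝ (⊤ : Submodule ℝ W) ≤ Module.finrank ℝ (sp v T) :=
      Submodule.finrank_mono hle
    rw [finrank_top, h9] at this
    have h4 : Module.finrank ℝ (sp v T) = 4 := hT4
    omega
  obtain ⟨x0, hx0T, hx0f⟩ := hX
  obtain ⟨y, hyT, hyE⟩ := h2 ι W v E h9 hE T x0 hT hx0T hx0f
  have erase_face : ∀ x z, x ∉ T → z ∈ T → E (insert x (T.erase z)) → IsFace v (T.erase z) := by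
    intro x z hx hz hEz
    have h := Finter _ _ hTf (hE.face _ hEz).1
    have heq : T ∩ insert x (T.erase z) = T.erase z := by
      ext i
      simp only [Finset.mem_inter, Finset.mem_insert, Finset.mem_erase]
      constructor
      · rintro ⟨hi, rfl | h⟩
        · exact absurd hi hx
        · exact h
      · rintro ⟨h1, h2⟩
        exact ⟨h2, Or.inr ⟨h1, h2⟩⟩
    rwa [heq] at h
  have hQf : IsFace v (T.erase y) := erase_face x0 y hx0T hyT hyE
  have hQ3 : rk v (T.erase y) = 3 := by
    have h := Fins (T.erase y) y hQf (Finset.notMem_erase y T)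
    rw [Finset.insert_erase hyT, hT4] at h
    omega
  have claim : ∀ x, x ∉ T → IsFace v (insert x T) → E (insert x (T.erase y)) := by
    intro x hx hxf
    obtain ⟨y', hy'T, hy'E⟩ := h2 ι W v E h9 hE T x hT hx hxf
    by_cases hyy : y' = y
    · rwa [hyy] at hy'E
    exfalso
    have hQ'f : IsFace v (T.erase y') := erase_face x y' hx hy'T hy'E
    have hPf : IsFace v ((T.erase y).erase y') := by
      have h := Finter _ _ hQf hQ'f
      have heq : T.erase y ∩ T.erase y' = (T.erase y).erase y' := by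
        ext i
        simp only [Finset.mem_inter, Finset.mem_erase]
        tauto
      rwa [heq] at h
    have hy'Q : y' ∈ T.erase y := Finset.mem_erase.2 ⟨hyy, hy'T⟩
    have hP2 : rk v ((T.erase y).erase y') = 2 := by
      have h := Fins _ y' hPf (Finset.notMem_erase y' _)
      rw [Finset.insert_erase hy'Q, hQ3] at h
      omega
    have hPc : 2 < ((T.erase y).erase y').card := by
      rw [Finset.card_erase_of_mem hy'Q, Finset.card_erase_of_mem hyT]
      omega
    obtain ⟨a, ha, b, hb, c, hc, hab, hac, hbc⟩ := Finset.two_lt_card.1 hPc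
    have h0 : rk v ∅ = 0 := by
      have h : sp v ∅ = ⊥ := by
        rw [sp, Finset.coe_empty, Set.image_empty, Submodule.span_empty]
      rw [rk, h, finrank_bot]
    have hsing : ∀ i, IsFace v (insert i ∅) := by
      intro i
      have := hconf.single i
      simpa using this
    exact hW ι W v ∅ ((T.erase y).erase y') a b c hconf.empty (Finset.empty_subset _)
      (by rw [hP2, h0]) ha hb hc (Finset.notMem_empty _) (Finset.notMem_empty _)
      (Finset.notMem_empty _) hab hbc hac (hsing a) (hsing b) (hsing c)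
  -- rotation
  obtain ⟨R, hRf, -, -, hRQ, hRsp⟩ := hR ι W v Finset.univ (T.erase y) ∅ Funiv hQf hconf.empty
    (Finset.subset_univ _) (Finset.empty_subset _)
  rw [Finset.empty_inter] at hRQ
  rw [hconf.span] at hRsp
  have hdim : ∀ A B : Submodule ℝ W, A ⊔ B = ⊤ →
      9 ≤ Module.finrank ℝ A + Module.finrank ℝ B := by
    intro A B hAB
    have h := Submodule.finrank_add_le_finrank_add_finrank A B
    rw [hAB, finrank_top, h9] at h
    exact h
  have hQ3' : Module.finrank ℝ (sp v (T.erase y)) = 3 := hQ3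
  have hR6 : 6 ≤ rk v R := by
    have h := hdim _ _ hRsp
    rw [hQ3'] at h
    have : rk v R = Module.finrank ℝ (sp v R) := rfl
    omega
  obtain ⟨T1, hT1, hT1R⟩ := hE.f1 R hRf hR6
  have hT1Q : ∀ z ∈ T1, z ∉ T.erase y := by
    intro z hz hz'
    have : z ∈ R ∩ T.erase y := Finset.mem_inter.2 ⟨hT1R hz, hz'⟩
    rw [hRQ] at this
    exact absurd this (Finset.notMem_empty z)
  have hyT1 : y ∈ T1 := by
    have h := hE.f2 T1 T hT1 hT
    rw [Finset.not_disjoint_iff] at h
    obtain ⟨z, hz1, hz2⟩ := h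
    have h3 := hT1Q z hz1
    rw [Finset.mem_erase, not_and] at h3
    by_cases hzy : z = y
    · rwa [hzy] at hz1
    · exact absurd hz2 (h3 hzy)
  have hXT1 : ∀ x, x ∉ T → IsFace v (insert x T) → x ∈ T1 := by
    intro x hx hxf
    have h := hE.f2 T1 _ hT1 (claim x hx hxf)
    rw [Finset.not_disjoint_iff] at h
    obtain ⟨z, hz1, hz2⟩ := h
    rcases Finset.mem_insert.1 hz2 with rfl | hz3
    · exact hz1
    · exact absurd hz3 (hT1Q z hz1)
  have htop : sp v T1 ⊔ sp v (T.erase y) = ⊤ := by
    rw [eq_top_iff]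
    refine hspan.trans (Submodule.span_le.2 ?_)
    rintro _ ⟨i, hi, rfl⟩
    have hin1 : ∀ j ∈ T1, v j ∈ sp v T1 ⊔ sp v (T.erase y) := fun j hj =>
      Submodule.mem_sup_left (Submodule.subset_span ⟨j, by simpa using hj, rfl⟩)
    rcases hi with hi | hi
    · by_cases hiy : i = y
      · rw [hiy]; exact hin1 y hyT1
      · exact Submodule.mem_sup_right (Submodule.subset_span
          ⟨i, Finset.mem_coe.2 (Finset.mem_erase.2 ⟨hiy, hi⟩), rfl⟩)
    · exact hin1 i (hXT1 i hi.2.1 hi.2.2)
  have h := hdim _ _ htop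
  have hT14 : Module.finrank ℝ (sp v T1) = 4 := (hE.face T1 hT1).2
  rw [hT14, hQ3'] at h
  omega

end Pool.Agent.H61.KU
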