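import Pool.Agent.H61.KU.TA

/-!
# Kuiper board, A10: topology of the 4-sphere minus points
-/

open Topology Set
open Pool.Agent.H59 Pool.Agent.H64.LB

namespace Pool.Agent.H61.KU

namespace S4A

theorem map_inj_of_homeo {X Y : Type} [TopologicalSpace X] [TopologicalSpace Y] (e : X ≃ₜ Y)
    (q : ℕ) : Function.Bijective (HH.map (ZMod 2) q (e : C(X, Y))) := by
  have h1 : ∀ z, HH.map (ZMod 2) q (e.symm : C(Y, X)) (HH.map (ZMod 2) q (e : C(X, Y)) z) = z := by
    intro z
    rw [← HH.map_comp]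
    have : ((e.symm : C(Y, X)).comp (e : C(X, Y))) = ContinuousMap.id X := by
      ext x; simp
    rw [this, HH.map_id]
  have h2 : ∀ z, HH.map (ZMod 2) q (e : C(X, Y)) (HH.map (ZMod 2) q (e.symm : C(Y, X)) z) = z := by
    intro z
    rw [← HH.map_comp]
    have : ((e : C(X, Y)).comp (e.symm : C(Y, X))) = ContinuousMap.id Y := by
      ext x; simp
    rw [this, HH.map_id]
  exact ⟨fun a b hab => by rw [← h1 a, ← h1 b, hab], fun y => ⟨_, h2 y⟩⟩

theorem sub_of_homeo {X Y : Type} [TopologicalSpace X] [TopologicalSpace Y] (e : X ≃ₜ Y)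
    (q : ℕ) (h : Subsingleton (HH (ZMod 2) q Y)) : Subsingleton (HH (ZMod 2) q X) :=
  (map_inj_of_homeo e q).1.subsingleton

theorem nontriv_of_homeo {X Y : Type} [TopologicalSpace X] [TopologicalSpace Y] (e : X ≃ₜ Y)
    (q : ℕ) (h : Nontrivial (HH (ZMod 2) q Y)) : Nontrivial (HH (ZMod 2) q X) :=
  (map_inj_of_homeo e q).2.nontrivial

instance factE : Fact (Module.finrank ℝ (EuclideanSpace ℝ (Fin 5)) = 4 + 1) :=
  ⟨by simp⟩

/-- the stereographic projection -/
noncomputable def st (y : S4) : ↥(({y} : Set S4)ᶜ) ≃ₜ (Fin 4 → ℝ) :=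
  (Homeomorph.setCongr (stereographic'_source (n := 4) y).symm).trans
    ((stereographic' 4 y).toHomeomorphSourceTarget.trans
      ((Homeomorph.setCongr (stereographic'_target (n := 4) y)).trans
        ((Homeomorph.Set.univ _).trans (EuclideanSpace.equiv (Fin 4) ℝ).toHomeomorph)))

/-- the stereographic projection, translated so that `z` goes to the origin -/
noncomputable def st0 (y z : S4) (h : y ≠ z) : ↥(({y} : Set S4)ᶜ) ≃ₜ (Fin 4 → ℝ) :=
  (st y).trans (Homeomorph.addRight (- st y ⟨z, fun hz => h (hz : z = y).symm⟩))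

theorem st0_eq_zero (y z : S4) (h : y ≠ z) (p : ↥(({y} : Set S4)ᶜ)) :
    st0 y z h p = 0 ↔ p.1 = z := by
  have h1 : st0 y z h p = st y p - st y ⟨z, fun hz => h (hz : z = y).symm⟩ := by
    simp [st0, sub_eq_add_neg]
  rw [h1, sub_eq_zero]
  constructor
  · intro h2
    have h3 := (st y).injective h2
    rw [h3]
  · intro h2
    congr 1
    exact Subtype.ext h2

/-- the sphere minus two points -/
noncomputable def two (y z : S4) (h : y ≠ z) :
    ↥((({y} : Set S4)ᶜ) ∩ (({z} : Set S4)ᶜ)) ≃ₜ Sph 3 where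
  toFun p := ⟨st0 y z h ⟨p.1, p.2.1⟩, fun h0 => p.2.2 ((st0_eq_zero y z h _).1 h0)⟩
  invFun x := ⟨((st0 y z h).symm x.1).1, ((st0 y z h).symm x.1).2, fun h0 => x.2 (by
    have h1 := (st0_eq_zero y z h ((st0 y z h).symm x.1)).2 h0
    rwa [Homeomorph.apply_symm_apply] at h1)⟩
  left_inv p := by
    apply Subtype.ext
    simp
  right_inv x := by
    apply Subtype.ext
    simp
  continuous_toFun := by
    refine Continuous.subtype_mk ?_ _
    exact (st0 y z h).continuous.comp (Continuous.subtype_mk continuous_subtype_val _)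
  continuous_invFun := by
    refine Continuous.subtype_mk ?_ _
    exact continuous_subtype_val.comp ((st0 y z h).symm.continuous.comp continuous_subtype_val)

instance (y : S4) : ContractibleSpace ↥(({y} : Set S4)ᶜ) := (st y).contractibleSpace

/-- the north pole -/
noncomputable def N : S4 := ⟨EuclideanSpace.single 0 1, by simp⟩

theorem exists_ne (y : S4) : ∃ z : S4, y ≠ z := by
  refine ⟨-y, ?_⟩
  exact ne_neg_of_mem_unit_sphere ℝ y

end S4A

open S4A

theorem pf_s4a (hM : T_MV) (hO : T_CON) (hH : T_H0) (hS : T_SPH) : T_S4A := by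
  obtain ⟨hS1, hS2, hS3, -⟩ := hS
  obtain ⟨ε, hε1, hε2, hε3⟩ := hH (ZMod 2)
  obtain ⟨T⟩ := hM (ZMod 2)
  have hpc : PathConnectedSpace S4 := by
    rw [← isPathConnected_iff_pathConnectedSpace]
    refine isPathConnected_sphere ?_ _ zero_le_one
    rw [← Module.finrank_eq_rank, finrank_euclideanSpace]
    norm_num
  have hU0 : ∀ (y : S4) (q : ℕ), 1 ≤ q → Subsingleton (HH (ZMod 2) q ↥(({y} : Set S4)ᶜ)) := by
    intro y q hq
    obtain ⟨q, rfl⟩ : ∃ p, q = p + 1 := ⟨q - 1, by omega⟩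
    exact hO (ZMod 2) _ q
  have hopen : ∀ y : S4, IsOpen (({y} : Set S4)ᶜ) := fun y => isOpen_compl_singleton
  have hcov : ∀ y z : S4, y ≠ z → (({y} : Set S4)ᶜ) ∪ (({z} : Set S4)ᶜ) = univ := by
    intro y z h
    ext x
    simp only [mem_union, mem_compl_iff, mem_singleton_iff, mem_univ, iff_true]
    by_cases hx : x = y
    · right
      rw [hx]
      exact h
    · exact Or.inl hx
  have hlow : ∀ q, 1 ≤ q → q ≤ 3 → Subsingleton (HH (ZMod 2) q S4) := by
    intro q h1 h3
    obtain ⟨q, rfl⟩ : ∃ p, q = p + 1 := ⟨q - 1, by omega⟩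
    obtain ⟨z, hz⟩ := exists_ne N
    refine subsingleton_of_forall_eq 0 (fun x => ?_)
    have hδ : T.δ S4 ({N}ᶜ) ({z}ᶜ) q x = 0 := by
      rcases Nat.eq_zero_or_pos q with rfl | hq
      · have : PathConnectedSpace ↥((({N} : Set S4)ᶜ) ∩ (({z} : Set S4)ᶜ)) := by
          have := hS3 3 (by norm_num)
          exact (two N z hz).symm.surjective.pathConnectedSpace (two N z hz).symm.continuous
        apply (hε3 ↥((({N} : Set S4)ᶜ) ∩ (({z} : Set S4)ᶜ))).1
        rw [map_zero]
        have h := ((T.exact_inter S4 ({N}ᶜ) ({z}ᶜ) (hopen N) (hopen z) (hcov N z hz) 0 _).2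
          ⟨x, rfl⟩).1
        rw [← hε2 _ _ (incL (({N} : Set S4)ᶜ) (({z} : Set S4)ᶜ)), h, map_zero]
      · have := sub_of_homeo (two N z hz) q (hS2 3 q hq (by omega))
        exact Subsingleton.elim _ _
    obtain ⟨a, b, hab⟩ := (T.exact_union S4 ({N}ᶜ) ({z}ᶜ) (hopen N) (hopen z)
      (hcov N z hz) q x).2 hδ
    have ha := hU0 N (q + 1) (by omega)
    have hb := hU0 z (q + 1) (by omega)
    rw [hab, Subsingleton.elim a 0, Subsingleton.elim b 0, map_zero, map_zero, add_zero]
  refine ⟨hpc, hlow, ?_, ?_, ?_, ?_⟩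
  · intro y
    refine ⟨?_, ?_⟩
    · intro q hq
      rcases Nat.eq_zero_or_pos q with rfl | hq1
      · have h1 := hε3 ↥(({y} : Set S4)ᶜ)
        have h2 := hε3 S4
        constructor
        · intro a b hab
          apply h1.1
          rw [← hε2 _ _ (inc (({y} : Set S4)ᶜ)), hab, hε2]
        · intro z
          obtain ⟨w, hw⟩ := h1.2 (ε S4 z)
          refine ⟨w, h2.1 ?_⟩
          rw [hε2, hw]
      · have h1 := hU0 y q hq1
        have h2 := hlow q hq1 hq
        exact ⟨fun a b _ => Subsingleton.elim a b, fun z => ⟨0, Subsingleton.elim _ _⟩⟩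
    · intro q hq
      exact hU0 y q (by omega)
  · intro y z hyz
    have heq : ({y, z} : Set S4)ᶜ = (({y} : Set S4)ᶜ) ∩ (({z} : Set S4)ᶜ) := by
      rw [← compl_union]; rfl
    exact nontriv_of_homeo ((Homeomorph.setCongr heq).trans (two y z hyz)) 3 (hS1 3)
  · refine ⟨Subtype.val ∘ (st N).symm, ?_⟩
    exact (hopen N).isOpenEmbedding_subtypeVal.comp (st N).symm.isOpenEmbedding
  · exact ChartedSpace.locallyPathConnectedSpace (EuclideanSpace ℝ (Fin 4)) S4

end Pool.Agent.H61.KU
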