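import Pool.Agent.H61.KU.TA

/-!
# Kuiper board, A03: a compact set with cell-like slices is cell-like
-/

open Topology Set
open Pool.Agent.H59 Pool.Agent.H64.LB

namespace Pool.Agent.H61.KU

namespace SLA

variable {Y : Type} [TopologicalSpace Y]

theorem map_incS {U V : Set Y} (h : U ⊆ V) (q : ℕ) (z : HH (ZMod 2) q U) :
    HH.map (ZMod 2) q (inc V) (HH.map (ZMod 2) q (incS h) z) = HH.map (ZMod 2) q (inc U) z := by
  rw [← HH.map_comp]
  rfl

theorem map_incS2 {U V W : Set Y} (h : U ⊆ V) (h' : V ⊆ W) (q : ℕ) (z : HH (ZMod 2) q U) :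
    HH.map (ZMod 2) q (incS h') (HH.map (ZMod 2) q (incS h) z) =
      HH.map (ZMod 2) q (incS (h.trans h')) z := by
  rw [← HH.map_comp]
  rfl

theorem map_incS_refl {U : Set Y} (q : ℕ) (z : HH (ZMod 2) q U) :
    HH.map (ZMod 2) q (incS (Subset.refl U)) z = z :=
  HH.map_id (ZMod 2) q z

theorem eq_zero_of_incS {U V : Set Y} (h : U ⊆ V) (h' : V ⊆ U) (q : ℕ) (z : HH (ZMod 2) q U)
    (hz : HH.map (ZMod 2) q (incS h) z = 0) : z = 0 := by
  have h1 := map_incS2 h h' q z
  rw [hz, map_zero] at h1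
  have h2 : HH.map (ZMod 2) q (incS (h.trans h')) z = z := map_incS_refl q z
  rw [← h2, ← h1]

end SLA

open SLA

theorem pf_sla (hM : T_MVS) (hC : T_CS) (hQ : T_COU) (hS : T_SLS) : T_SLA := by
  intro Y _ _ A t a b hA ht hab hbd hsl
  obtain ⟨M⟩ := hM (ZMod 2)
  have hAc : IsClosed A := hA.isClosed
  have hDc : ∀ x y, IsClosed (A ∩ t ⁻¹' (Icc x y)) := fun x y =>
    ht.preimage_isClosed_of_isClosed hAc isClosed_Icc
  have hAD : ∀ x y, Aᶜ ⊆ (A ∩ t ⁻¹' (Icc x y))ᶜ := fun x y =>
    compl_subset_compl.2 inter_subset_left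
  -- the main statement
  have main : ∀ (q : ℕ) (z : HH (ZMod 2) q ↥(Aᶜ)),
      (q ≤ 3 → HH.map (ZMod 2) q (inc Aᶜ) z = 0) → z = 0 := by
    intro q z hz
    have key : HH.map (ZMod 2) q (incS (hAD a b)) z = 0 := by
      refine hQ (fun x y => HH.map (ZMod 2) q (incS (hAD x y)) z = 0) a b hab ?_ ?_ ?_
      · rintro x x' y' y h1 - h3 hxy
        have hsub : (A ∩ t ⁻¹' (Icc x y))ᶜ ⊆ (A ∩ t ⁻¹' (Icc x' y'))ᶜ :=
          compl_subset_compl.2 (inter_subset_inter_right _ (preimage_mono (Icc_subset_Icc h1 h3)))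
        have h4 := map_incS2 (hAD x y) hsub q z
        have h5 : HH.map (ZMod 2) q (incS (hAD x y)) z = 0 := hxy
        rw [h5, map_zero] at h4
        exact h4.symm
      · intro x y z' hxy hyz hy hQ1 hQ2
        have hun : (A ∩ t ⁻¹' (Icc x y))ᶜ ∪ (A ∩ t ⁻¹' (Icc y z'))ᶜ =
            {w | w ∈ A ∧ t w = y}ᶜ := by
          rw [← compl_inter]
          congr 1
          ext w
          simp only [mem_inter_iff, mem_preimage, mem_Icc, mem_ofPred_eq]
          constructor
          · rintro ⟨⟨h1, h2, h3⟩, -, h4, h5⟩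
            exact ⟨h1, le_antisymm h3 h4⟩
          · rintro ⟨h1, h2⟩
            subst h2
            exact ⟨⟨h1, hxy, le_rfl⟩, h1, le_rfl, hyz⟩
        have hin : (A ∩ t ⁻¹' (Icc x y))ᶜ ∩ (A ∩ t ⁻¹' (Icc y z'))ᶜ ⊆
            (A ∩ t ⁻¹' (Icc x z'))ᶜ := by
          rintro w ⟨h1, h2⟩ ⟨h3, h4, h5⟩
          rcases le_total (t w) y with h6 | h6
          · exact h1 ⟨h3, h4, h6⟩
          · exact h2 ⟨h3, h6, h5⟩
        have hAi : Aᶜ ⊆ (A ∩ t ⁻¹' (Icc x y))ᶜ ∩ (A ∩ t ⁻¹' (Icc y z'))ᶜ :=
          subset_inter (hAD x y) (hAD y z')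
        have hw : HH.map (ZMod 2) q (incS hAi) z = 0 := by
          have hL : HH.map (ZMod 2) q (incL ((A ∩ t ⁻¹' (Icc x y))ᶜ) ((A ∩ t ⁻¹' (Icc y z'))ᶜ))
              (HH.map (ZMod 2) q (incS hAi) z) = 0 :=
            (map_incS2 hAi inter_subset_left q z).trans hQ1
          have hR : HH.map (ZMod 2) q (incR ((A ∩ t ⁻¹' (Icc x y))ᶜ) ((A ∩ t ⁻¹' (Icc y z'))ᶜ))
              (HH.map (ZMod 2) q (incS hAi) z) = 0 :=
            (map_incS2 hAi inter_subset_right q z).trans hQ2
          obtain ⟨u, hu⟩ := (M.exact_inter Y _ _ (hDc x y).isOpen_compl (hDc y z').isOpen_compl q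
            (HH.map (ZMod 2) q (incS hAi) z)).1 ⟨hL, hR⟩
          rw [← hu]
          rcases Nat.lt_or_ge 3 (q + 1) with hq | hq
          · have hsub : Subsingleton (HH (ZMod 2) (q + 1)
                ↥((A ∩ t ⁻¹' (Icc x y))ᶜ ∪ (A ∩ t ⁻¹' (Icc y z'))ᶜ)) := by
              rw [hun]
              exact (hsl y hy).2 (q + 1) (by omega)
            rw [Subsingleton.elim u 0, map_zero]
          · have hinj : Function.Injective (HH.map (ZMod 2) (q + 1)
                (inc ((A ∩ t ⁻¹' (Icc x y))ᶜ ∪ (A ∩ t ⁻¹' (Icc y z'))ᶜ))) := by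
              rw [hun]
              exact ((hsl y hy).1 (q + 1) hq).1
            have hcomp : IsCompact (A ∩ t ⁻¹' (Icc x y)) :=
              hA.of_isClosed_subset (hDc x y) inter_subset_left
            obtain ⟨u1, hu1⟩ := hS Y (A ∩ t ⁻¹' (Icc x y)) t (max x a) y hcomp
              (ht.mono inter_subset_left) (max_le hxy hy.1)
              (fun w hw => ⟨max_le hw.2.1 (hbd w hw.1).1, hw.2.2⟩)
              (by
                intro c hc
                have heq : {w | w ∈ A ∩ t ⁻¹' (Icc x y) ∧ t w = c} = {w | w ∈ A ∧ t w = c} := by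
                  ext w
                  simp only [mem_inter_iff, mem_preimage, mem_Icc, mem_ofPred_eq]
                  constructor
                  · rintro ⟨⟨h1, -⟩, h2⟩
                    exact ⟨h1, h2⟩
                  · rintro ⟨h1, h2⟩
                    refine ⟨⟨h1, ?_, ?_⟩, h2⟩
                    · rw [h2]; exact (le_max_left x a).trans hc.1
                    · rw [h2]; exact hc.2
                rw [heq]
                exact hsl c ⟨(le_max_right x a).trans hc.1, hc.2.trans hy.2⟩)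
              (q + 1) hq (HH.map (ZMod 2) (q + 1)
                (inc ((A ∩ t ⁻¹' (Icc x y))ᶜ ∪ (A ∩ t ⁻¹' (Icc y z'))ᶜ)) u)
            have hu2 : u = HH.map (ZMod 2) (q + 1)
                (incUL ((A ∩ t ⁻¹' (Icc x y))ᶜ) ((A ∩ t ⁻¹' (Icc y z'))ᶜ)) u1 := by
              apply hinj
              rw [← hu1]
              exact (map_incS _ (q + 1) u1).symm
            refine (M.exact_union Y _ _ (hDc x y).isOpen_compl (hDc y z').isOpen_compl q u).1
              ⟨u1, 0, ?_⟩
            rw [map_zero, add_zero]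
            exact hu2
        have h4 := map_incS2 hAi hin q z
        rw [hw, map_zero] at h4
        exact h4.symm
      · intro c0 hc0
        set S : Set Y := {y | y ∈ A ∧ t y = c0} with hSdef
        have hAS : Aᶜ ⊆ Sᶜ := compl_subset_compl.2 (fun y hy => hy.1)
        have hzS : HH.map (ZMod 2) q (incS hAS) z = 0 := by
          rcases Nat.lt_or_ge 3 q with hq | hq
          · have := (hsl c0 hc0).2 q hq
            exact Subsingleton.elim (α := HH (ZMod 2) q ↥(Sᶜ)) _ _
          · apply ((hsl c0 hc0).1 q hq).1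
            rw [map_zero]
            exact (map_incS hAS q z).trans (hz hq)
        set F : Set (Set Y) := {U | ∃ e : ℝ, 0 < e ∧ U = (A ∩ t ⁻¹' (Icc (c0 - e) (c0 + e)))ᶜ}
          with hF
        have hFo : ∀ U ∈ F, IsOpen U := by
          rintro U ⟨e, -, rfl⟩
          exact (hDc _ _).isOpen_compl
        have hFn : F.Nonempty := ⟨_, 1, one_pos, rfl⟩
        have hFd : DirectedOn (· ⊆ ·) F := by
          rintro U ⟨e, he, rfl⟩ V ⟨e', he', rfl⟩
          refine ⟨_, ⟨min e e', lt_min he he', rfl⟩, ?_, ?_⟩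
          · exact compl_subset_compl.2 (inter_subset_inter_right _ (preimage_mono
              (Icc_subset_Icc (by linarith [min_le_left e e']) (by linarith [min_le_left e e']))))
          · exact compl_subset_compl.2 (inter_subset_inter_right _ (preimage_mono
              (Icc_subset_Icc (by linarith [min_le_right e e'])
                (by linarith [min_le_right e e']))))
        have hsub : Sᶜ ⊆ ⋃₀ F := by
          intro w hw
          by_cases hwA : w ∈ A
          · have hne : t w ≠ c0 := fun h => hw ⟨hwA, h⟩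
            have hpos : 0 < |t w - c0| := abs_pos.2 (sub_ne_zero.2 hne)
            refine ⟨_, ⟨|t w - c0| / 2, by linarith, rfl⟩, ?_⟩
            rintro ⟨-, h1, h2⟩
            have h3 : |t w - c0| ≤ |t w - c0| / 2 := abs_le.2 ⟨by linarith, by linarith⟩
            linarith
          · refine ⟨_, ⟨1, one_pos, rfl⟩, ?_⟩
            rintro ⟨h1, -⟩
            exact hwA h1
        have hU : (A ∩ t ⁻¹' (Icc (c0 - 1) (c0 + 1)))ᶜ ∈ F := ⟨1, one_pos, rfl⟩
        have h0 : HH.map (ZMod 2) q (incS (subset_sUnion_of_mem hU))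
            (HH.map (ZMod 2) q (incS (hAD (c0 - 1) (c0 + 1))) z) = 0 := by
          have h4 := map_incS2 hAS hsub q z
          rw [hzS, map_zero] at h4
          exact (map_incS2 (hAD (c0 - 1) (c0 + 1)) (subset_sUnion_of_mem hU) q z).trans h4.symm
        obtain ⟨V, hV, h, hV0⟩ := (hC (ZMod 2) Y F hFo hFn hFd q).2 _ hU _ h0
        obtain ⟨e, he, rfl⟩ := hV
        refine ⟨e, he, ?_⟩
        exact (map_incS2 (hAD (c0 - 1) (c0 + 1)) h q z).symm.trans hV0
    exact eq_zero_of_incS (hAD a b) (compl_subset_compl.2 fun y hy => ⟨hy, hbd y hy⟩) q z key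
  refine ⟨fun q hq => ⟨?_, hS Y A t a b hA ht hab hbd hsl q hq⟩, fun q hq => ?_⟩
  · rw [injective_iff_map_eq_zero]
    intro z hz
    exact main q z (fun _ => hz)
  · exact subsingleton_of_forall_eq 0 (fun z => main q z (fun h => by omega))

end Pool.Agent.H61.KU
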